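import Pool.Agent.X14.PC3

/-!
# `Σ_{k<p^r} (3k+1) (1/2)_k^3/k!^3 2^{2k}` modulo `p^{r+4}`
-/

set_option autoImplicit false

namespace Pool.Agent.Results.MP_950ea9_nt.BernoulliAllPowers

open Finset

/-- The rising factorial `(x)_k = x (x+1) ⋯ (x+k-1)`. -/
def rf (x : ℚ) (k : ℕ) : ℚ := ∏ i ∈ range k, (x + i)

/-- The sum `S(p,r)`. -/
def S (p r : ℕ) : ℚ := ∑ k ∈ range (p ^ r), (3 * (k : ℚ) + 1) * (rf (1 / 2) k ^ 3 / (k.factorial : ℚ) ^ 3) * 2 ^ (2 * k)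

lemma rf_half (k : ℕ) : rf (1 / 2) k / (k.factorial : ℚ) = (k.centralBinom : ℚ) / 4 ^ k := by
  induction k with
  | zero => simp [rf]
  | succ k ih =>
    have h1 : rf (1 / 2) (k + 1) = rf (1 / 2) k * (1 / 2 + k) := by rw [rf, prod_range_succ, ← rf]
    have h2 := Nat.succ_mul_centralBinom_succ k
    have h3 : ((k : ℚ) + 1) * ((k + 1).centralBinom : ℚ) = 2 * (2 * k + 1) * (k.centralBinom : ℚ) := by exact_mod_cast h2
    have h4 : (k.factorial : ℚ) ≠ 0 := by exact_mod_cast Nat.factorial_ne_zero k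
    have h5 : ((k : ℚ) + 1) ≠ 0 := by positivity
    rw [h1, Nat.factorial_succ]
    push_cast
    have h6 : ((k + 1).centralBinom : ℚ) = 2 * (2 * k + 1) * (k.centralBinom : ℚ) / (k + 1) := by
      rw [eq_div_iff h5, ← h3]; ring
    have h7 : rf (1 / 2) k * (1 / 2 + (k : ℚ)) / (((k : ℚ) + 1) * (k.factorial : ℚ)) =
        rf (1 / 2) k / (k.factorial : ℚ) * ((1 / 2 + (k : ℚ)) / (k + 1)) := by
      rw [mul_comm ((k : ℚ) + 1), mul_div_mul_comm]
    rw [h7, ih, h6, pow_succ]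
    have h8 : (4 : ℚ) ^ k ≠ 0 := by positivity
    field_simp
    ring

/-- For every prime `p > 3` and every `r ≥ 1`:
`S(p,r) ≡ p^r + (7/6) B_{p-3} p^{r+3} (mod p^{r+4})`, i.e. the difference of the two sides is
`p^{r+4} u` with a rational number `u` whose denominator is prime to `p`. -/
theorem result (p r : ℕ) (hp : p.Prime) (hp3 : 3 < p) (hr : 1 ≤ r) :
    ∃ u : ℚ, ¬ p ∣ u.den ∧
      S p r - ((p : ℚ) ^ r + 7 / 6 * bernoulli (p - 3) * (p : ℚ) ^ (r + 3)) = (p : ℚ) ^ (r + 4) * u := by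
  haveI : Fact p.Prime := ⟨hp⟩
  obtain ⟨b, rfl⟩ : ∃ b, r = b + 1 := ⟨r - 1, by omega⟩
  have h1 := Pool.Agent.X14.PC.main_t (p := p) (by omega) (by omega) b
  obtain ⟨u, hu1, hu2⟩ := Pool.Agent.H434R2.PO.exists_rep h1
  refine ⟨u, fun h => ?_, ?_⟩
  · exact hp.one_lt.ne' (Nat.Coprime.eq_one_of_dvd hu1.symm h)
  · rw [show b + 1 + 4 = b + 5 by ring, ← hu2, S]
    congr 1
    apply sum_congr rfl
    intro k _
    rw [← div_pow, rf_half, Pool.Agent.X14.PC.t_eq, mul_assoc]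

end Pool.Agent.Results.MP_950ea9_nt.BernoulliAllPowers
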